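import Mathlib

set_option autoImplicit false

/-!
# MP_75fda7_co: exponential domination in trees of bounded maximum degree

The statement `γ_e(T) = Ω(n(T) / log n(T))` for trees of bounded maximum degree is false: there are
trees of maximum degree at most `6` with at least `5 ^ k` vertices and exponential domination number
at most `4 ^ k`.
-/

namespace Pool.Agent.Results.MP_75fda7_co.BoundedDegreeTrees

open Finset SimpleGraph

/-- `p` is a path from `u` to `v` such that exactly one endvertex of `p` lies in `S` and no internal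
vertex of `p` lies in `S` (a trivial path has the single endvertex `u = v`). -/
def IsAdm {V : Type} [DecidableEq V] {G : SimpleGraph V} (S : Finset V) {u v : V}
    (p : G.Walk u v) : Prop :=
  p.IsPath ∧ (({u, v} : Finset V) ∩ S).card = 1 ∧ ∀ x ∈ p.support, x ≠ u → x ≠ v → x ∉ S

/-- `dist_{(G,S)}(u,v)`: the least length of an admissible path from `u` to `v`, and `∞` if there is
no such path. -/
noncomputable def distS {V : Type} [DecidableEq V] (G : SimpleGraph V) (S : Finset V) (u v : V) :
    ℕ∞ :=
  ⨅ (p : G.Walk u v) (_ : IsAdm S p), (p.length : ℕ∞)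

/-- `(1/2) ^ (d - 1)`, with the value `0` for `d = ∞`. -/
noncomputable def power (d : ℕ∞) : ℝ := if d = ⊤ then 0 else (1 / 2 : ℝ) ^ ((d.toNat : ℤ) - 1)

/-- The weight `w_{(G,S)}(u)`. -/
noncomputable def weight {V : Type} [DecidableEq V] (G : SimpleGraph V) (S : Finset V) (u : V) : ℝ :=
  ∑ v ∈ S, power (distS G S u v)

/-- Exponential dominating sets. -/
def IsExpDominating {V : Type} [DecidableEq V] (G : SimpleGraph V) (S : Finset V) : Prop :=
  ∀ u : V, 1 ≤ weight G S u

/-- The exponential domination number: the minimum size of an exponential dominating set. -/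
noncomputable def expDomNumber {V : Type} [DecidableEq V] (G : SimpleGraph V) : ℕ :=
  sInf {k : ℕ | ∃ S : Finset V, IsExpDominating G S ∧ S.card = k}

lemma power_nonneg (d : ℕ∞) : 0 ≤ power d := by
  unfold power
  split_ifs
  · exact le_rfl
  · positivity

lemma power_ge {d : ℕ∞} {m : ℕ} (h : d ≤ m) : (1 / 2 : ℝ) ^ ((m : ℤ) - 1) ≤ power d := by
  have hd : d ≠ ⊤ := fun h' => by
    rw [h'] at h
    exact absurd h (not_le.2 (ENat.natCast_lt_top m))
  obtain ⟨k, rfl⟩ := ENat.ne_top_iff_exists.1 hd
  rw [power, if_neg hd, ENat.toNat_natCast]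
  have hk : k ≤ m := by exact_mod_cast h
  apply zpow_le_zpow_right_of_le_one₀ (by norm_num) (by norm_num)
  omega

lemma distS_le {V : Type} [DecidableEq V] {G : SimpleGraph V} {S : Finset V} {u v : V}
    (p : G.Walk u v) (hp : IsAdm S p) : distS G S u v ≤ p.length :=
  iInf₂_le p hp

/-! ### A tree from a parent function -/

/-- A parent function with decreasing levels defines a tree. -/
theorem isTree_of_parent {V : Type} [Fintype V] (r : V) (par : V → V) (lev : V → ℕ)
    (hlev : ∀ x, x ≠ r → lev (par x) < lev x) :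
    (SimpleGraph.fromRel fun x y : V => x ≠ r ∧ y = par x).IsTree := by
  classical
  set T := SimpleGraph.fromRel fun x y : V => x ≠ r ∧ y = par x with hTdef
  have hadj : ∀ x, x ≠ r → T.Adj x (par x) := by
    intro x hx
    rw [hTdef, SimpleGraph.fromRel_adj]
    refine ⟨fun h => ?_, Or.inl ⟨hx, rfl⟩⟩
    have := hlev x hx
    rw [← h] at this
    omega
  have hreach : ∀ n x, lev x = n → T.Reachable r x := by
    intro n
    induction n using Nat.strong_induction_on with
    | _ n ih =>
      intro x hx
      by_cases hr : x = r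
      · rw [hr]
      · exact (ih _ (hx ▸ hlev x hr) _ rfl).trans (hadj x hr).symm.reachable
  have hconn : T.Connected := by
    have : Nonempty V := ⟨r⟩
    refine SimpleGraph.Connected.mk ?_
    intro x y
    exact (hreach _ x rfl).symm.trans (hreach _ y rfl)
  rw [SimpleGraph.isTree_iff_connected_and_card]
  refine ⟨hconn, ?_⟩
  have h1 := hconn.card_vert_le_card_edgeSet_add_one
  have h2 : T.edgeSet ⊆ (fun x => s(x, par x)) '' {x | x ≠ r} := by
    intro e
    induction e using Sym2.ind with
    | _ x y =>
      intro h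
      rw [SimpleGraph.mem_edgeSet, hTdef, SimpleGraph.fromRel_adj] at h
      rcases h with ⟨-, ⟨h1, h2⟩ | ⟨h1, h2⟩⟩
      · exact ⟨x, h1, by simp [h2]⟩
      · exact ⟨y, h1, by simp [h2, Sym2.eq_swap]⟩
  have h3 : Nat.card T.edgeSet ≤ Fintype.card V - 1 := by
    rw [Nat.card_coe_set_eq]
    calc T.edgeSet.ncard ≤ ((fun x => s(x, par x)) '' {x | x ≠ r}).ncard :=
          Set.ncard_le_ncard h2 (Set.toFinite _)
      _ ≤ ({x | x ≠ r} : Set V).ncard := Set.ncard_image_le (Set.toFinite _)
      _ = Fintype.card V - 1 := by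
          have : ({x | x ≠ r} : Set V) = ((Finset.univ.erase r : Finset V) : Set V) := by
            ext z; simp
          rw [this, Set.ncard_coe_finset, Finset.card_erase_of_mem (Finset.mem_univ _),
            Finset.card_univ]
  have h4 : 0 < Fintype.card V := Fintype.card_pos_iff.2 ⟨r⟩
  have h5 : Nat.card V = Fintype.card V := Nat.card_eq_fintype_card
  omega

/-! ### The complete 5-ary tree of depth `H` -/

/-- The vertices: the words of length at most `H` over an alphabet with `5` letters. -/
abbrev Word (H : ℕ) : Type := {l : List (Fin 5) // l.length ≤ H}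

noncomputable instance (H : ℕ) : Fintype (Word H) :=
  (List.finite_length_le (Fin 5) H).fintype

/-- The empty word. -/
def root (H : ℕ) : Word H := ⟨[], by simp⟩

/-- Delete the first letter. -/
def par {H : ℕ} (x : Word H) : Word H :=
  ⟨x.1.tail, by have := x.2; rw [List.length_tail]; omega⟩

/-- The complete 5-ary tree of depth `H`. -/
def tree (H : ℕ) : SimpleGraph (Word H) :=
  SimpleGraph.fromRel fun x y : Word H => x ≠ root H ∧ y = par x

lemma par_lt {H : ℕ} (x : Word H) (hx : x ≠ root H) : (par x).1.length < x.1.length := by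
  have h : x.1 ≠ [] := fun h => hx (Subtype.ext h)
  have h2 : 0 < x.1.length := List.length_pos_iff.2 h
  simp only [par, List.length_tail]
  omega

lemma tree_isTree (H : ℕ) : (tree H).IsTree :=
  isTree_of_parent (root H) par (fun x => x.1.length) par_lt

lemma adj_par {H : ℕ} (x : Word H) (hx : x ≠ root H) : (tree H).Adj x (par x) := by
  rw [tree, SimpleGraph.fromRel_adj]
  refine ⟨fun h => ?_, Or.inl ⟨hx, rfl⟩⟩
  have := par_lt x hx
  rw [← h] at this
  omega

/-- The walk from `x` to the root. -/
lemma exists_up {H : ℕ} : ∀ (n : ℕ) (x : Word H), x.1.length = n →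
    ∃ p : (tree H).Walk x (root H), p.length ≤ n ∧
      ∀ y ∈ p.support, y = x ∨ y.1.length < x.1.length := by
  intro n
  induction n with
  | zero =>
    intro x hx
    have : x = root H := Subtype.ext (List.length_eq_zero_iff.1 hx)
    subst this
    exact ⟨Walk.nil, le_rfl, fun y hy => Or.inl (by simpa using hy)⟩
  | succ n ih =>
    intro x hx
    have hx0 : x ≠ root H := by
      rintro rfl
      simp [root] at hx
    have h1 : (par x).1.length = n := by
      simp only [par, List.length_tail]
      omega
    obtain ⟨p, hp, hs⟩ := ih (par x) h1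
    refine ⟨Walk.cons (adj_par x hx0) p, by rw [Walk.length_cons]; omega, ?_⟩
    intro y hy
    rw [Walk.support_cons, List.mem_cons] at hy
    rcases hy with rfl | hy
    · exact Or.inl rfl
    · right
      rcases hs y hy with rfl | h
      · omega
      · omega

/-- Between any two vertices there is a path whose internal vertices have depth less than `H`. -/
lemma exists_path {H : ℕ} (u v : Word H) :
    ∃ p : (tree H).Walk u v, p.IsPath ∧ p.length ≤ 2 * H ∧
      ∀ y ∈ p.support, y ≠ u → y ≠ v → y.1.length < H := by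
  classical
  obtain ⟨p, hp, hps⟩ := exists_up _ u rfl
  obtain ⟨q, hq, hqs⟩ := exists_up _ v rfl
  refine ⟨(p.append q.reverse).bypass, Walk.bypass_isPath _, ?_, ?_⟩
  · refine (Walk.length_bypass_le_length _).trans ?_
    rw [Walk.length_append, Walk.length_reverse]
    have := u.2
    have := v.2
    omega
  · intro y hy h1 h2
    have hy' := Walk.support_bypass_subset_support _ hy
    rw [Walk.mem_support_append_iff, Walk.support_reverse, List.mem_reverse] at hy'
    have := u.2
    have := v.2
    rcases hy' with h | h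
    · rcases hps y h with h | h
      · exact absurd h h1
      · omega
    · rcases hqs y h with h | h
      · exact absurd h h2
      · omega

/-- The degrees are at most `6`. -/
lemma degree_le (H : ℕ) [DecidableRel (tree H).Adj] (x : Word H) : (tree H).degree x ≤ 6 := by
  classical
  rw [← SimpleGraph.card_neighborFinset_eq_degree]
  have h1 : ((tree H).neighborFinset x).image Subtype.val ⊆
      insert x.1.tail (Finset.univ.image fun a : Fin 5 => a :: x.1) := by
    intro l hl
    rw [Finset.mem_image] at hl
    obtain ⟨y, hy, rfl⟩ := hl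
    rw [SimpleGraph.mem_neighborFinset, tree, SimpleGraph.fromRel_adj] at hy
    rw [Finset.mem_insert, Finset.mem_image]
    rcases hy.2 with ⟨-, h⟩ | ⟨h0, h⟩
    · left; rw [h]; rfl
    · right
      have h3 : y.1 ≠ [] := fun h' => h0 (Subtype.ext h')
      refine ⟨y.1.head h3, Finset.mem_univ _, ?_⟩
      rw [h]
      exact List.cons_head_tail h3
  have h2 := Finset.card_le_card h1
  rw [Finset.card_image_of_injective _ Subtype.val_injective] at h2
  refine h2.trans ((Finset.card_insert_le _ _).trans ?_)
  have h3 : (Finset.univ.image fun a : Fin 5 => a :: x.1).card ≤ 5 := by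
    refine Finset.card_image_le.trans ?_
    simp
  omega

/-- The words of length exactly `H`. -/
noncomputable def leaves (H : ℕ) : Finset (Word H) :=
  Finset.univ.image fun v : List.Vector (Fin 5) H => (⟨v.1, v.2.le⟩ : Word H)

lemma card_leaves (H : ℕ) : (leaves H).card = 5 ^ H := by
  rw [leaves, Finset.card_image_of_injective]
  · rw [Finset.card_univ, card_vector, Fintype.card_fin]
  · intro v w h
    have := congrArg Subtype.val h
    exact Subtype.ext this

lemma mem_leaves {H : ℕ} {x : Word H} (hx : x ∈ leaves H) : x.1.length = H := by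
  rw [leaves, Finset.mem_image] at hx
  obtain ⟨v, -, rfl⟩ := hx
  exact v.2

lemma card_ge (H : ℕ) : 5 ^ H ≤ Fintype.card (Word H) := by
  rw [← card_leaves H]
  exact Finset.card_le_univ _

/-- Every set of `4 ^ H` leaves is an exponential dominating set. -/
lemma isExpDominating (H : ℕ) (S : Finset (Word H)) (hS : S ⊆ leaves H) (hc : S.card = 4 ^ H) :
    IsExpDominating (tree H) S := by
  intro u
  rw [weight]
  by_cases hu : u ∈ S
  · have h1 : distS (tree H) S u u ≤ ((0 : ℕ) : ℕ∞) := by
      refine distS_le (Walk.nil : (tree H).Walk u u) ⟨Walk.IsPath.nil, ?_, ?_⟩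
      · rw [Finset.pair_eq_singleton, Finset.singleton_inter_of_mem hu, Finset.card_singleton]
      · intro x hx h1
        exact absurd (by simpa using hx) h1
    have h2 := power_ge h1
    have h3 : power (distS (tree H) S u u) ≤ ∑ v ∈ S, power (distS (tree H) S u v) :=
      Finset.single_le_sum (f := fun v => power (distS (tree H) S u v))
        (fun v _ => power_nonneg _) hu
    refine le_trans ?_ (h2.trans h3)
    norm_num
  · have h1 : ∀ v ∈ S, (1 / 2 : ℝ) ^ (((2 * H : ℕ) : ℤ) - 1) ≤ power (distS (tree H) S u v) := by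
      intro v hv
      obtain ⟨p, hp, hl, hs⟩ := exists_path u v
      apply power_ge
      refine (distS_le p ⟨hp, ?_, ?_⟩).trans (by exact_mod_cast hl)
      · have : ({u, v} : Finset (Word H)) ∩ S = {v} := by
          rw [Finset.insert_inter_of_notMem hu, Finset.singleton_inter_of_mem hv]
        rw [this, Finset.card_singleton]
      · intro x hx h1 h2 h3
        have h4 := hs x hx h1 h2
        have h5 := mem_leaves (hS h3)
        omega
    have h2 := Finset.sum_le_sum h1
    rw [Finset.sum_const, hc, nsmul_eq_mul] at h2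
    refine le_trans ?_ h2
    have h3 : ((4 ^ H : ℕ) : ℝ) * (1 / 2 : ℝ) ^ (((2 * H : ℕ) : ℤ) - 1) = 2 := by
      rw [zpow_sub₀ (by norm_num), zpow_natCast, zpow_one]
      push_cast
      rw [pow_mul, show ((4 : ℝ) ^ H * (((1 / 2 : ℝ) ^ 2) ^ H / (1 / 2))) =
        2 * (4 ^ H * ((1 / 2 : ℝ) ^ 2) ^ H) by ring, ← mul_pow]
      norm_num
    rw [h3]
    norm_num

lemma expDomNumber_le (H : ℕ) : expDomNumber (tree H) ≤ 4 ^ H := by
  obtain ⟨S, hS, hc⟩ := Finset.exists_subset_card_eq (s := leaves H) (n := 4 ^ H)
    (by rw [card_leaves]; exact Nat.pow_le_pow_left (by norm_num) H)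
  exact Nat.sInf_le ⟨S, isExpDominating H S hS hc, hc⟩

/-- There are trees of maximum degree at most `6` with at least `5 ^ k` vertices and exponential
domination number at most `4 ^ k`. Consequently it is false that for every `Δ` there is `c > 0` with
`γ_e(T) ≥ c n(T) / log n(T)` for all trees `T` of maximum degree at most `Δ` with at least two
vertices. -/
theorem result :
    (∀ k : ℕ, ∃ (V : Type) (_ : Fintype V) (_ : DecidableEq V) (T : SimpleGraph V)
      (_ : DecidableRel T.Adj), T.IsTree ∧ (∀ v, T.degree v ≤ 6) ∧ 5 ^ k ≤ Fintype.card V ∧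
        expDomNumber T ≤ 4 ^ k) ∧
    ¬ (∀ Δ : ℕ, ∃ c : ℝ, 0 < c ∧ ∀ (V : Type) [Fintype V] [DecidableEq V] (T : SimpleGraph V)
      [DecidableRel T.Adj], T.IsTree → (∀ v, T.degree v ≤ Δ) → 2 ≤ Fintype.card V →
        c * ((Fintype.card V : ℝ) / Real.log (Fintype.card V)) ≤ expDomNumber T) := by
  classical
  refine ⟨fun k => ⟨Word k, inferInstance, inferInstance, tree k, inferInstance, tree_isTree k,
    fun v => degree_le k v, card_ge k, expDomNumber_le k⟩, ?_⟩
  intro hcon
  obtain ⟨c, hc, h⟩ := hcon 6
  have hlim := tendsto_self_mul_const_pow_of_lt_one (r := (4 / 5 : ℝ)) (by norm_num) (by norm_num)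
  have hlim2 := hlim.mul_const (Real.log 5)
  rw [zero_mul] at hlim2
  have hev := (hlim2.eventually (gt_mem_nhds hc)).and (Filter.eventually_ge_atTop 2)
  obtain ⟨k, hk1, hk2⟩ := hev.exists
  have hn := card_ge k
  have h25 : 25 ≤ 5 ^ k := by
    calc 25 = 5 ^ 2 := by norm_num
      _ ≤ 5 ^ k := Nat.pow_le_pow_right (by norm_num) hk2
  have hmain := h (Word k) (tree k) (tree_isTree k) (fun v => degree_le k v) (by omega)
  have hγ : (expDomNumber (tree k) : ℝ) ≤ 4 ^ k := by exact_mod_cast expDomNumber_le k
  set n : ℝ := (Fintype.card (Word k) : ℝ) with hndef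
  have hn5 : (5 : ℝ) ^ k ≤ n := by rw [hndef]; exact_mod_cast hn
  have h25' : (25 : ℝ) ≤ 5 ^ k := by exact_mod_cast h25
  have hnpos : 0 < n := by linarith
  have hexp : Real.exp 1 ≤ (5 : ℝ) ^ k := by
    have := Real.exp_one_lt_d9
    linarith
  have hlogn : 0 < Real.log n := Real.log_pos (by linarith)
  have hanti := Real.log_div_self_antitoneOn (Set.mem_ofPred.2 hexp)
    (Set.mem_ofPred.2 (hexp.trans hn5)) hn5
  simp only at hanti
  rw [Real.log_pow] at hanti
  have h1 : c ≤ 4 ^ k * (Real.log n / n) := by
    have h2 : c * (n / Real.log n) ≤ 4 ^ k := hmain.trans hγ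
    rw [mul_div_assoc', div_le_iff₀ hlogn] at h2
    rw [mul_div_assoc', le_div_iff₀ hnpos]
    exact h2
  have h3 : (4 : ℝ) ^ k * (Real.log n / n) ≤ 4 ^ k * (k * Real.log 5 / 5 ^ k) :=
    mul_le_mul_of_nonneg_left hanti (by positivity)
  have h4 : (4 : ℝ) ^ k * (k * Real.log 5 / 5 ^ k) = k * (4 / 5) ^ k * Real.log 5 := by
    rw [div_pow]
    ring
  rw [h4] at h3
  linarith

end Pool.Agent.Results.MP_75fda7_co.BoundedDegreeTrees
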